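import Pool.Agent.R3B.StmtsU

/-!
# Row GRW of squad R3B: growth of the distance to the supremum, uniform in the weight
-/

set_option autoImplicit false

namespace Pool.Agent.R3B.H3

open Set Filter Topology MeasureTheory
open Pool.Agent.R3B
open Pool.Agent.Helper39_Wave (phi continuous_phi phi_nonneg phi_sub_le)
open Pool.Agent.Helper72_Shell (CharSol fold fold_nonneg)

/-- the pointwise inequality -/
theorem grw_point {α κ bb k0 k1 Λ fo v w : ℝ} (hα : 0 < α) (hk0 : 0 < k0) (hΛ : 0 ≤ Λ)
    (hfo : 0 ≤ fo) (hlo : k0 ≤ κ * bb) (hhi : κ * bb * fo ^ α ≤ k1) (hk1 : 0 ≤ k1)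
    (hv : 0 ≤ v) (hw : 0 ≤ w) (hw2 : w ≤ 2) (hV : |w - v| ≤ Λ * fo) :
    k0 * phi α w ≤ lmd α k0 k1 Λ * v + κ * (bb * phi α (w - v)) := by
  have hΛα : 0 ≤ Λ ^ α := Real.rpow_nonneg hΛ α
  have h2α : (0 : ℝ) ≤ 2 ^ α := Real.rpow_nonneg (by norm_num) α
  have hlm : lmd α k0 k1 Λ = k1 * Λ ^ α + k0 * ((α + 1) * 2 ^ α) := rfl
  have hkb : 0 ≤ κ * bb := hk0.le.trans hlo
  have n1 : 0 ≤ k1 * Λ ^ α * v := by positivity
  rcases le_or_gt v w with hvw | hvw
  · have h1 := phi_sub_le hα (a := w) (b := w - v) (M := 2)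
      (by rw [abs_le]; constructor <;> linarith) (by rw [abs_le]; constructor <;> linarith)
    have h2 : |w - v - w| = v := by
      rw [show w - v - w = -v by ring, abs_neg, abs_of_nonneg hv]
    rw [h2] at h1
    have h3 := (abs_le.mp h1).1
    have h4 : 0 ≤ phi α (w - v) := phi_nonneg (by linarith)
    have h5 := mul_le_mul_of_nonneg_right hlo h4
    have h6 := mul_le_mul_of_nonneg_left h3 hk0.le
    rw [hlm]
    have e1 : κ * (bb * phi α (w - v)) = κ * bb * phi α (w - v) := by ring
    rw [e1]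
    have e2 : k0 * -((α + 1) * 2 ^ α * v) = -(k0 * ((α + 1) * 2 ^ α) * v) := by ring
    rw [e2] at h6
    have e3 : (k1 * Λ ^ α + k0 * ((α + 1) * 2 ^ α)) * v
        = k1 * Λ ^ α * v + k0 * ((α + 1) * 2 ^ α) * v := by ring
    rw [e3]
    linarith
  · have hV' : |w - v| = v - w := by rw [abs_sub_comm, abs_of_nonneg (by linarith)]
    have h1 : |w - v| ^ α ≤ (Λ * fo) ^ α := Real.rpow_le_rpow (abs_nonneg _) hV hα.le
    have h2 : κ * bb * |w - v| ^ α ≤ k1 * Λ ^ α := by
      have a1 : κ * bb * |w - v| ^ α ≤ κ * bb * (Λ * fo) ^ α := mul_le_mul_of_nonneg_left h1 hkb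
      rw [Real.mul_rpow hΛ hfo] at a1
      have a2 := mul_le_mul_of_nonneg_right hhi hΛα
      have a3 : κ * bb * (Λ ^ α * fo ^ α) = κ * bb * fo ^ α * Λ ^ α := by ring
      rw [a3] at a1
      exact a1.trans a2
    have e1 : κ * (bb * phi α (w - v)) = -(κ * bb * |w - v| ^ α * (v - w)) := by
      unfold phi
      ring
    rw [e1]
    have hvw0 : 0 ≤ v - w := by linarith
    have h3 : κ * bb * |w - v| ^ α * (v - w) ≤ k1 * Λ ^ α * (v - w) :=
      mul_le_mul_of_nonneg_right h2 hvw0
    have h4 : k1 * Λ ^ α * (v - w) ≤ k1 * Λ ^ α * v :=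
      mul_le_mul_of_nonneg_left (by linarith) (by positivity)
    have h5 : phi α w ≤ 2 ^ α * v := by
      have : phi α w = w ^ α * w := by unfold phi; rw [abs_of_nonneg hw]
      rw [this]
      exact mul_le_mul (Real.rpow_le_rpow hw hw2 hα.le) hvw.le hw h2α
    have h6 : k0 * phi α w ≤ k0 * (2 ^ α * v) := mul_le_mul_of_nonneg_left h5 hk0.le
    have h7 : k0 * (2 ^ α * v) ≤ k0 * ((α + 1) * 2 ^ α) * v := by
      have : 0 ≤ k0 * (2 ^ α * v) * α := by positivity
      nlinarith
    rw [hlm]
    have e3 : (k1 * Λ ^ α + k0 * ((α + 1) * 2 ^ α)) * v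
        = k1 * Λ ^ α * v + k0 * ((α + 1) * 2 ^ α) * v := by ring
    rw [e3]
    linarith

/-- growth of the distance to the supremum -/
theorem grw : GrwStmt := by
  intro κ α ℓ b0 b P k0 k1 Λ hU t0 M z t ht0 hM1 hM ht
  have h := hU.sol
  set lam : ℝ := lmd α k0 k1 Λ with hlam
  have hb := h.abs_le_of_le ht0 hM
  have hM0 : 0 ≤ M := (abs_nonneg _).trans (hM 0)
  have hk0 := hU.k0p
  have hlam0 : 0 ≤ lam := by
    have h1 : 0 ≤ Λ ^ α := Real.rpow_nonneg hU.Λn α
    have h2 : (0 : ℝ) ≤ 2 ^ α := Real.rpow_nonneg (by norm_num) α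
    have h3 := hU.k1n
    have h4 := h.apos
    rw [hlam, lmd]
    positivity
  have hcw : Continuous (fun s : ℝ => phi α (M - P s (2 * s - z))) := by
    apply (continuous_phi h.apos).comp
    apply continuous_const.sub
    exact h.contP continuous_id (by fun_prop)
  set G : ℝ → ℝ := fun t => Real.exp (lam * (t - t0)) * (M - P t z) -
    k0 * ∫ s in t0..t, phi α (M - P s (2 * s - z)) with hG
  have hGd : ∀ t, t0 < t → HasDerivAt G ((Real.exp (lam * (t - t0)) * lam) * (M - P t z) +
      Real.exp (lam * (t - t0)) * (κ * (b (z - t) * phi α (P t z - P t (2 * t - z)))) -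
      k0 * phi α (M - P t (2 * t - z))) t := by
    intro t ht
    have h1 : HasDerivAt (fun t => Real.exp (lam * (t - t0))) (Real.exp (lam * (t - t0)) * lam) t := by
      have h2 : HasDerivAt (fun t => lam * (t - t0)) lam t := by
        simpa using ((hasDerivAt_id t).sub_const t0).const_mul lam
      exact h2.exp
    have h3 : HasDerivAt (fun t => M - P t z)
        (κ * (b (z - t) * phi α (P t z - P t (2 * t - z)))) t := by
      have := (h.hasDerivAt (lt_of_le_of_lt ht0 ht) z).const_sub M
      simpa using this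
    have h4 := (intervalIntegral.integral_hasDerivAt_right (hcw.intervalIntegrable t0 t)
      (hcw.stronglyMeasurableAtFilter _ _) hcw.continuousAt).const_mul k0
    exact (h1.mul h3).sub h4
  have hGc : Continuous G := by
    apply Continuous.sub
    · apply Continuous.mul (by fun_prop)
      exact continuous_const.sub (h.contP continuous_id continuous_const)
    · apply continuous_const.mul
      exact intervalIntegral.continuous_primitive (fun a b => hcw.intervalIntegrable a b) t0
  have hmono : MonotoneOn G (Set.Ici t0) := by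
    apply monotoneOn_of_deriv_nonneg (convex_Ici t0) hGc.continuousOn
    · intro x hx
      rw [interior_Ici] at hx
      exact (hGd x hx).differentiableAt.differentiableWithinAt
    · intro x hx
      rw [interior_Ici] at hx
      rw [(hGd x hx).deriv]
      have hx0 : t0 ≤ x := le_of_lt hx
      have hV := hU.vb x z (ht0.trans hx0)
      set v := M - P x z with hv
      set w := M - P x (2 * x - z) with hw
      have b1 := abs_le.mp (hb x hx0 z)
      have b2 := abs_le.mp (hb x hx0 (2 * x - z))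
      have hDvw : P x z - P x (2 * x - z) = w - v := by rw [hw, hv]; ring
      rw [hDvw] at hV ⊢
      have hv0 : 0 ≤ v := by rw [hv]; linarith [b1.2]
      have hw0 : 0 ≤ w := by rw [hw]; linarith [b2.2]
      have hw2 : w ≤ 2 := by rw [hw]; linarith [b2.1]
      have hlo : k0 ≤ κ * b (z - x) :=
        hU.lo.trans (mul_le_mul_of_nonneg_left (h.blo _) h.kpos.le)
      have h4 := grw_point h.apos hk0 hU.Λn (fold_nonneg h.lpos (z - x)) hlo (hU.hi (z - x)) hU.k1n
        hv0 hw0 hw2 hV
      have h5 : 1 ≤ Real.exp (lam * (x - t0)) := by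
        apply Real.one_le_exp
        exact mul_nonneg hlam0 (by linarith)
      have h6 : 0 ≤ k0 * phi α w := mul_nonneg hk0.le (phi_nonneg hw0)
      have h7 : k0 * phi α w ≤
          Real.exp (lam * (x - t0)) * (lam * v + κ * (b (z - x) * phi α (w - v))) := by
        calc k0 * phi α w = 1 * (k0 * phi α w) := by ring
          _ ≤ Real.exp (lam * (x - t0)) * (k0 * phi α w) := mul_le_mul_of_nonneg_right h5 h6
          _ ≤ _ := mul_le_mul_of_nonneg_left h4 (Real.exp_pos _).le
      linarith
  have h1 := hmono (Set.mem_Ici.mpr le_rfl) (Set.mem_Ici.mpr ht) ht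
  have h2 : G t0 = M - P t0 z := by
    simp only [hG]
    simp
  rw [h2] at h1
  simp only [hG] at h1
  linarith

end Pool.Agent.R3B.H3
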